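import Pool.Agent.helper80.Kus3.F1a

/-!
# The area formula for the two-dimensional Hausdorff measure (module KF1b)
-/

open Set Metric MeasureTheory
open scoped ContDiff Topology NNReal ENNReal Function

namespace Kusner.P.F1b

variable {E : Type*} [NormedAddCommGroup E] [InnerProductSpace ℝ E]

theorem continuous_jac : Continuous fun p : E × E => jac p.1 p.2 := by
  unfold jac
  fun_prop

theorem jac_pos_injective (A : ℝ × ℝ →L[ℝ] E) (h : 0 < jac (A (1, 0)) (A (0, 1))) :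
    Function.Injective A := by
  rw [injective_iff_map_eq_zero]
  rintro ⟨a, b⟩ hab
  have h1 : a • A (1, 0) + b • A (0, 1) = 0 := by
    rw [← map_smul, ← map_smul, ← map_add, ← hab]
    congr 1
    ext <;> simp
  have hpos : 0 < ‖A (1, 0)‖ ^ 2 * ‖A (0, 1)‖ ^ 2 - inner ℝ (A (1, 0)) (A (0, 1)) ^ 2 :=
    Real.sqrt_pos.1 h
  generalize A (1, 0) = u at *
  generalize A (0, 1) = v at *
  by_contra hne
  have hab' : a ≠ 0 ∨ b ≠ 0 := by
    by_contra hcon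
    push Not at hcon
    exact hne (by rw [hcon.1, hcon.2]; rfl)
  rcases hab' with ha | hb
  · have hu : u = (-(b / a)) • v := by
      have : a • u = -(b • v) := eq_neg_of_add_eq_zero_left h1
      calc u = a⁻¹ • (a • u) := by rw [smul_smul, inv_mul_cancel₀ ha, one_smul]
        _ = a⁻¹ • (-(b • v)) := by rw [this]
        _ = (-(b / a)) • v := by
          rw [smul_neg, smul_smul, neg_smul]; congr 2; field_simp
    rw [hu, norm_smul, inner_smul_left, real_inner_self_eq_norm_sq] at hpos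
    simp only [Real.norm_eq_abs, mul_pow, sq_abs, conj_trivial] at hpos
    nlinarith
  · have hu : v = (-(a / b)) • u := by
      have : b • v = -(a • u) := eq_neg_of_add_eq_zero_right h1
      calc v = b⁻¹ • (b • v) := by rw [smul_smul, inv_mul_cancel₀ hb, one_smul]
        _ = b⁻¹ • (-(a • u)) := by rw [this]
        _ = (-(a / b)) • u := by
          rw [smul_neg, smul_smul, neg_smul]; congr 2; field_simp
    rw [hu, norm_smul, inner_smul_right, real_inner_self_eq_norm_sq] at hpos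
    simp only [Real.norm_eq_abs, mul_pow, sq_abs] at hpos
    nlinarith

variable [MeasurableSpace E] [BorelSpace E]

/-- Comparison of the images under a map and its linear approximation. -/
theorem piece_le {ψ : ℝ × ℝ → E} {A : ℝ × ℝ →L[ℝ] E} {B : Set (ℝ × ℝ)} {K ε : ℝ≥0}
    (hK : 0 < K) (hA : AntilipschitzWith K A) (happ : ApproximatesLinearOn ψ A B (ε / K)) :
    μH[2] (ψ '' B) ≤ ((1 + ε : ℝ≥0) : ℝ≥0∞) ^ (2 : ℝ) * μH[2] (A '' B) := by
  have hinj : Function.Injective A := hA.injective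
  have hg : LipschitzOnWith (1 + ε) (ψ ∘ Function.invFun A) (A '' B) := by
    refine LipschitzOnWith.of_dist_le_mul ?_
    rintro _ ⟨x, hx, rfl⟩ _ ⟨y, hy, rfl⟩
    simp only [Function.comp_apply, Function.leftInverse_invFun hinj x,
      Function.leftInverse_invFun hinj y]
    rw [dist_eq_norm, dist_eq_norm]
    have h1 := happ x hx y hy
    have h2 : ‖x - y‖ ≤ K * ‖A x - A y‖ := by
      have := hA.le_mul_dist x y
      rwa [dist_eq_norm, dist_eq_norm] at this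
    have h3 : ((ε / K : ℝ≥0) : ℝ) * ‖x - y‖ ≤ ε * ‖A x - A y‖ := by
      have hK' : (0 : ℝ) < K := hK
      rw [NNReal.coe_div, div_mul_eq_mul_div, div_le_iff₀ hK']
      calc (ε : ℝ) * ‖x - y‖ ≤ ε * (K * ‖A x - A y‖) :=
            mul_le_mul_of_nonneg_left h2 ε.2
        _ = ε * ‖A x - A y‖ * K := by ring
    rw [map_sub] at h1
    have h4 : ‖ψ x - ψ y‖ ≤ ‖ψ x - ψ y - (A x - A y)‖ + ‖A x - A y‖ := by
      have := norm_add_le (ψ x - ψ y - (A x - A y)) (A x - A y)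
      rwa [sub_add_cancel] at this
    push_cast
    linarith
  have h := hg.hausdorffMeasure_image_le (d := 2) (by norm_num)
  have himg : (ψ ∘ Function.invFun A) '' (A '' B) = ψ '' B := by
    ext y
    constructor
    · rintro ⟨_, ⟨x, hx, rfl⟩, rfl⟩
      exact ⟨x, hx, by simp [Function.leftInverse_invFun hinj x]⟩
    · rintro ⟨x, hx, rfl⟩
      exact ⟨A x, ⟨x, hx, rfl⟩, by simp [Function.leftInverse_invFun hinj x]⟩
  rwa [himg] at h

theorem le_piece {ψ : ℝ × ℝ → E} {A : ℝ × ℝ →L[ℝ] E} {B : Set (ℝ × ℝ)} {K ε : ℝ≥0}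
    (hK : 0 < K) (hε : ε < 1) (hA : AntilipschitzWith K A)
    (happ : ApproximatesLinearOn ψ A B (ε / K)) (hi : InjOn ψ B) :
    μH[2] (A '' B) ≤ ((1 - ε : ℝ≥0)⁻¹ : ℝ≥0∞) ^ (2 : ℝ) * μH[2] (ψ '' B) := by
  rcases B.eq_empty_or_nonempty with rfl | hBne
  · simp
  have hε0 : (0 : ℝ≥0) < 1 - ε := tsub_pos_of_lt hε
  have hg : LipschitzOnWith (1 - ε)⁻¹ (A ∘ Function.invFunOn ψ B) (ψ '' B) := by
    refine LipschitzOnWith.of_dist_le_mul ?_
    rintro _ ⟨x, hx, rfl⟩ _ ⟨y, hy, rfl⟩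
    have hx' : Function.invFunOn ψ B (ψ x) = x := hi.leftInvOn_invFunOn hx
    have hy' : Function.invFunOn ψ B (ψ y) = y := hi.leftInvOn_invFunOn hy
    simp only [Function.comp_apply, hx', hy']
    rw [dist_eq_norm, dist_eq_norm]
    have h1 := happ x hx y hy
    have h2 : ‖x - y‖ ≤ K * ‖A x - A y‖ := by
      have := hA.le_mul_dist x y
      rwa [dist_eq_norm, dist_eq_norm] at this
    have h3 : ((ε / K : ℝ≥0) : ℝ) * ‖x - y‖ ≤ ε * ‖A x - A y‖ := by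
      have hK' : (0 : ℝ) < K := hK
      rw [NNReal.coe_div, div_mul_eq_mul_div, div_le_iff₀ hK']
      calc (ε : ℝ) * ‖x - y‖ ≤ ε * (K * ‖A x - A y‖) :=
            mul_le_mul_of_nonneg_left h2 ε.2
        _ = ε * ‖A x - A y‖ * K := by ring
    have h4 : ‖A x - A y‖ ≤ ‖ψ x - ψ y - A (x - y)‖ + ‖ψ x - ψ y‖ := by
      have := norm_sub_le (ψ x - ψ y) (ψ x - ψ y - A (x - y))
      rw [sub_sub_cancel, map_sub] at this
      rw [map_sub]
      linarith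
    have hε1 : (0 : ℝ) < 1 - ε := by
      have : (ε : ℝ) < 1 := by exact_mod_cast hε
      linarith
    rw [NNReal.coe_inv, NNReal.coe_sub hε.le, NNReal.coe_one, inv_mul_eq_div, le_div_iff₀ hε1]
    linarith
  have h := hg.hausdorffMeasure_image_le (d := 2) (by norm_num)
  have himg : (A ∘ Function.invFunOn ψ B) '' (ψ '' B) = A '' B := by
    ext y
    constructor
    · rintro ⟨_, ⟨x, hx, rfl⟩, rfl⟩
      exact ⟨x, hx, by simp [hi.leftInvOn_invFunOn hx]⟩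
    · rintro ⟨x, hx, rfl⟩
      exact ⟨ψ x, ⟨x, hx, rfl⟩, by simp [hi.leftInvOn_invFunOn hx]⟩
  rw [himg] at h
  refine h.trans (le_of_eq ?_)
  congr 2
  rw [ENNReal.coe_inv hε0.ne']

/-- One piece: the area of the image compared with the integral of the Jacobian. -/
theorem piece_bounds {ψ : ℝ × ℝ → E} {A : ℝ × ℝ →L[ℝ] E} {B : Set (ℝ × ℝ)} {K ε : ℝ≥0}
    (hlin : μH[2] (A '' B) = ENNReal.ofReal (cH * jac (A (1, 0)) (A (0, 1))) * volume B)
    (hcH : 0 < cH) (hB : MeasurableSet B)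
    (hK : 0 < K) (hε : ε < 1) (hA : AntilipschitzWith K A)
    (happ : ApproximatesLinearOn ψ A B (ε / K)) (hi : InjOn ψ B) {J : ℝ × ℝ → ℝ}
    (hJ1 : ∀ u ∈ B, jac (A (1, 0)) (A (0, 1)) ≤ (1 + ε) * J u)
    (hJ2 : ∀ u ∈ B, J u ≤ (1 + ε) * jac (A (1, 0)) (A (0, 1))) :
    μH[2] (ψ '' B) ≤ ((1 + ε : ℝ≥0) : ℝ≥0∞) ^ (2 : ℝ) * ((1 + ε : ℝ≥0) : ℝ≥0∞) *
        ∫⁻ u in B, ENNReal.ofReal (cH * J u) ∧
    ∫⁻ u in B, ENNReal.ofReal (cH * J u) ≤
      ((1 + ε : ℝ≥0) : ℝ≥0∞) * ((1 - ε : ℝ≥0)⁻¹ : ℝ≥0∞) ^ (2 : ℝ) * μH[2] (ψ '' B) := by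
  have hε0 : (0 : ℝ) ≤ 1 + ε := by positivity
  constructor
  · refine (piece_le hK hA happ).trans ?_
    rw [mul_assoc]
    refine mul_le_mul_right ?_ _
    rw [hlin, ← lintegral_const_mul' _ _ ENNReal.coe_ne_top, ← setLIntegral_const]
    refine setLIntegral_mono' hB fun u hu => ?_
    rw [← ENNReal.ofReal_coe_nnreal, ← ENNReal.ofReal_mul (by positivity)]
    refine ENNReal.ofReal_le_ofReal ?_
    push_cast
    nlinarith [hJ1 u hu, mul_le_mul_of_nonneg_left (hJ1 u hu) hcH.le]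
  · have h1 : ∫⁻ u in B, ENNReal.ofReal (cH * J u) ≤
        ((1 + ε : ℝ≥0) : ℝ≥0∞) * μH[2] (A '' B) := by
      rw [hlin, ← setLIntegral_const, ← lintegral_const_mul' _ _ ENNReal.coe_ne_top]
      refine setLIntegral_mono' hB fun u hu => ?_
      rw [← ENNReal.ofReal_coe_nnreal, ← ENNReal.ofReal_mul (by positivity)]
      refine ENNReal.ofReal_le_ofReal ?_
      push_cast
      nlinarith [hJ2 u hu, mul_le_mul_of_nonneg_left (hJ2 u hu) hcH.le]
    refine h1.trans ?_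
    rw [mul_assoc]
    exact mul_le_mul_right (le_piece hK hε hA happ hi) _

/-- Both inequalities for a fixed `ε`. -/
theorem bounds [FiniteDimensional ℝ E]
    (hlin : ∀ (A : ℝ × ℝ →L[ℝ] E), Function.Injective A → ∀ B : Set (ℝ × ℝ),
      μH[2] (A '' B) = ENNReal.ofReal (cH * jac (A (1, 0)) (A (0, 1))) * volume B)
    (hcH : 0 < cH)
    {ψ : ℝ × ℝ → E} {U s : Set (ℝ × ℝ)} (hU : IsOpen U) (hψ : ContDiffOn ℝ 1 ψ U)
    (hj : ∀ u ∈ U, 0 < jac (fderiv ℝ ψ u (1, 0)) (fderiv ℝ ψ u (0, 1)))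
    (hs : MeasurableSet s) (hsU : s ⊆ U) (hinj : InjOn ψ s) {ε : ℝ≥0} (hε0 : 0 < ε)
    (hε : ε < 1) :
    μH[2] (ψ '' s) ≤ ((1 + ε : ℝ≥0) : ℝ≥0∞) ^ (2 : ℝ) * ((1 + ε : ℝ≥0) : ℝ≥0∞) *
        ∫⁻ u in s, ENNReal.ofReal (cH * jac (fderiv ℝ ψ u (1, 0)) (fderiv ℝ ψ u (0, 1))) ∧
    ∫⁻ u in s, ENNReal.ofReal (cH * jac (fderiv ℝ ψ u (1, 0)) (fderiv ℝ ψ u (0, 1))) ≤
      ((1 + ε : ℝ≥0) : ℝ≥0∞) * ((1 - ε : ℝ≥0)⁻¹ : ℝ≥0∞) ^ (2 : ℝ) * μH[2] (ψ '' s) := by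
  classical
  set J : ℝ × ℝ → ℝ := fun u => jac (fderiv ℝ ψ u (1, 0)) (fderiv ℝ ψ u (0, 1)) with hJdef
  have hJm : Measurable J := by
    have h1 := measurable_fderiv_apply_const ℝ ψ ((1, 0) : ℝ × ℝ)
    have h2 := measurable_fderiv_apply_const ℝ ψ ((0, 1) : ℝ × ℝ)
    exact continuous_jac.measurable.comp (h1.prodMk h2)
  have hcont : ContinuousOn ψ s := hψ.continuousOn.mono hsU
  have hdiff : ∀ u ∈ s, HasFDerivAt ψ (fderiv ℝ ψ u) u := fun u hu =>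
    ((hψ.differentiableOn one_ne_zero u (hsU hu)).differentiableAt
      (hU.mem_nhds (hsU hu))).hasFDerivAt
  have hone : (1 : ℝ) < 1 + ε := by
    have : (0 : ℝ) < ε := hε0
    linarith
  -- level sets of the Jacobian
  set L : ℤ → Set (ℝ × ℝ) := fun k => s ∩ J ⁻¹' Ico ((1 + ε : ℝ) ^ k) ((1 + ε : ℝ) ^ (k + 1))
    with hL
  have hLm : ∀ k, MeasurableSet (L k) := fun k => hs.inter (hJm measurableSet_Ico)
  have hLd : Pairwise (Disjoint on L) := by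
    intro k l hkl
    refine Disjoint.mono inter_subset_right inter_subset_right (Disjoint.preimage _ ?_)
    have := (zpow_right_strictMono₀ hone).monotone.pairwise_disjoint_on_Ico_succ hkl
    simpa [Order.succ_eq_add_one, Function.onFun] using this
  have hLs : s = ⋃ k, L k := by
    ext u
    simp only [hL, mem_iUnion, mem_inter_iff, mem_preimage]
    constructor
    · intro hu
      obtain ⟨k, hk⟩ := exists_mem_Ico_zpow (hj u (hsU hu)) hone
      exact ⟨k, hu, hk⟩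
    · rintro ⟨k, hu, _⟩
      exact hu
  -- the partition of each level set
  have hKex : ∀ A : ℝ × ℝ →L[ℝ] E, ∃ K : ℝ≥0, 0 < K ∧
      (Function.Injective A → AntilipschitzWith K A) := by
    intro A
    by_cases hA : Function.Injective A
    · obtain ⟨K, hK, h⟩ := LinearMap.exists_antilipschitzWith (A : ℝ × ℝ →ₗ[ℝ] E)
        (LinearMap.ker_eq_bot.2 hA)
      exact ⟨K, hK, fun _ => h⟩
    · exact ⟨1, one_pos, fun h => absurd h hA⟩
  choose κ hκ0 hκ using hKex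
  have hpart : ∀ k : ℤ, ∃ (t : ℕ → Set (ℝ × ℝ)) (A : ℕ → ℝ × ℝ →L[ℝ] E),
      Pairwise (Disjoint on t) ∧ (∀ n, MeasurableSet (t n)) ∧ (L k ⊆ ⋃ n, t n) ∧
      (∀ n, ApproximatesLinearOn ψ (A n) (L k ∩ t n) (ε / κ (A n))) ∧
      ((L k).Nonempty → ∀ n, ∃ y ∈ L k, A n = fderiv ℝ ψ y) := fun k =>
    exists_partition_approximatesLinearOn_of_hasFDerivWithinAt ψ (L k) (fderiv ℝ ψ)
      (fun x hx => (hdiff x hx.1).hasFDerivWithinAt) (fun A => ε / κ A)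
      (fun A => (div_pos hε0 (hκ0 A)).ne')
  choose t A htd htm htc happ hAy using hpart
  set B : ℤ × ℕ → Set (ℝ × ℝ) := fun p => L p.1 ∩ t p.1 p.2 with hBdef
  have hBm : ∀ p, MeasurableSet (B p) := fun p => (hLm p.1).inter (htm p.1 p.2)
  have hBs : ∀ p, B p ⊆ s := fun p u hu => hu.1.1
  have hBd : Pairwise (Disjoint on B) := by
    rintro ⟨k, n⟩ ⟨l, m⟩ hne
    by_cases hkl : k = l
    · subst hkl
      have hnm : n ≠ m := fun h => hne (by rw [h])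
      exact Disjoint.mono inter_subset_right inter_subset_right (htd k hnm)
    · exact Disjoint.mono inter_subset_left inter_subset_left (hLd hkl)
  have hBU : s = ⋃ p, B p := by
    ext u
    constructor
    · intro hu
      rw [hLs, mem_iUnion] at hu
      obtain ⟨k, hk⟩ := hu
      obtain ⟨n, hn⟩ := mem_iUnion.1 (htc k hk)
      exact mem_iUnion.2 ⟨(k, n), hk, hn⟩
    · intro hu
      obtain ⟨p, hp⟩ := mem_iUnion.1 hu
      exact hBs p hp
  have hpiece : ∀ p,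
      μH[2] (ψ '' B p) ≤ ((1 + ε : ℝ≥0) : ℝ≥0∞) ^ (2 : ℝ) * ((1 + ε : ℝ≥0) : ℝ≥0∞) *
        ∫⁻ u in B p, ENNReal.ofReal (cH * J u) ∧
      ∫⁻ u in B p, ENNReal.ofReal (cH * J u) ≤
        ((1 + ε : ℝ≥0) : ℝ≥0∞) * ((1 - ε : ℝ≥0)⁻¹ : ℝ≥0∞) ^ (2 : ℝ) * μH[2] (ψ '' B p) := by
    rintro ⟨k, n⟩
    rcases (B (k, n)).eq_empty_or_nonempty with hemp | ⟨z, hz⟩
    · rw [hemp]
      simp
    obtain ⟨y, hy, hAn⟩ := hAy k ⟨z, hz.1⟩ n
    have hyJ := hy.2
    have hypos : 0 < J y := hj y (hsU hy.1)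
    have hAJ : jac (A k n (1, 0)) (A k n (0, 1)) = J y := by rw [hAn]
    have hAinj : Function.Injective (A k n) := jac_pos_injective _ (by rw [hAJ]; exact hypos)
    have hεp : (0 : ℝ) < 1 + ε := by linarith
    refine piece_bounds (hlin _ hAinj _) hcH (hBm _) (hκ0 _) hε (hκ _ hAinj) (happ k n)
      (hinj.mono (hBs _)) ?_ ?_
    · intro u hu
      have huJ := hu.1.2
      rw [hAJ]
      simp only [mem_preimage, mem_Ico] at hyJ huJ
      have h1 : (1 + ε : ℝ) ^ (k + 1) = (1 + ε) * (1 + ε : ℝ) ^ k := by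
        rw [zpow_add_one₀ hεp.ne', mul_comm]
      nlinarith [hyJ.2, huJ.1]
    · intro u hu
      have huJ := hu.1.2
      rw [hAJ]
      simp only [mem_preimage, mem_Ico] at hyJ huJ
      have h1 : (1 + ε : ℝ) ^ (k + 1) = (1 + ε) * (1 + ε : ℝ) ^ k := by
        rw [zpow_add_one₀ hεp.ne', mul_comm]
      nlinarith [hyJ.1, huJ.2]
  have hIm : ∀ p, MeasurableSet (ψ '' B p) := fun p =>
    (hBm p).image_of_continuousOn_injOn (hcont.mono (hBs p)) (hinj.mono (hBs p))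
  have hId : Pairwise (Disjoint on fun p => ψ '' B p) := by
    intro p q hpq
    have h := hBd hpq
    simp only [Function.onFun] at h ⊢
    rw [Set.disjoint_left]
    rintro _ ⟨x, hx, rfl⟩ ⟨y, hy, hxy⟩
    have hxy' : y = x := hinj (hBs q hy) (hBs p hx) hxy
    subst hxy'
    exact Set.disjoint_left.1 h hx hy
  have hsum1 : μH[2] (ψ '' s) = ∑' p, μH[2] (ψ '' B p) := by
    conv_lhs => rw [hBU, image_iUnion]
    exact measure_iUnion hId hIm
  have hsum2 : ∫⁻ u in s, ENNReal.ofReal (cH * J u) =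
      ∑' p, ∫⁻ u in B p, ENNReal.ofReal (cH * J u) := by
    conv_lhs => rw [hBU]
    exact lintegral_iUnion hBm hBd _
  constructor
  · rw [hsum1, hsum2, ← ENNReal.tsum_mul_left]
    exact ENNReal.tsum_le_tsum fun p => (hpiece p).1
  · rw [hsum1, hsum2, ← ENNReal.tsum_mul_left]
    exact ENNReal.tsum_le_tsum fun p => (hpiece p).2

theorem area_formula_aux [FiniteDimensional ℝ E]
    (hlin : ∀ (A : ℝ × ℝ →L[ℝ] E), Function.Injective A → ∀ B : Set (ℝ × ℝ),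
      μH[2] (A '' B) = ENNReal.ofReal (cH * jac (A (1, 0)) (A (0, 1))) * volume B)
    (hcH : 0 < cH)
    {ψ : ℝ × ℝ → E} {U s : Set (ℝ × ℝ)} (hU : IsOpen U) (hψ : ContDiffOn ℝ 1 ψ U)
    (hj : ∀ u ∈ U, 0 < jac (fderiv ℝ ψ u (1, 0)) (fderiv ℝ ψ u (0, 1)))
    (hs : MeasurableSet s) (hsU : s ⊆ U) (hinj : InjOn ψ s) :
    μH[2] (ψ '' s) =
      ∫⁻ u in s, ENNReal.ofReal (cH * jac (fderiv ℝ ψ u (1, 0)) (fderiv ℝ ψ u (0, 1))) := by
  have hb := fun (ε : ℝ≥0) (h0 : 0 < ε) (h1 : ε < 1) =>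
    bounds hlin hcH hU hψ hj hs hsU hinj h0 h1
  set I := ∫⁻ u in s, ENNReal.ofReal (cH * jac (fderiv ℝ ψ u (1, 0)) (fderiv ℝ ψ u (0, 1)))
  have hev : ∀ᶠ ε : ℝ≥0 in 𝓝[>] 0, 0 < ε ∧ ε < 1 := by
    filter_upwards [self_mem_nhdsWithin, mem_nhdsWithin_of_mem_nhds (Iio_mem_nhds one_pos)]
      with ε h0 h1 using ⟨h0, h1⟩
  have ht1 : Filter.Tendsto (fun ε : ℝ≥0 => ((1 + ε : ℝ≥0) : ℝ≥0∞)) (𝓝[>] 0) (𝓝 1) := by
    have : Filter.Tendsto (fun ε : ℝ≥0 => (1 + ε : ℝ≥0)) (𝓝[>] 0) (𝓝 (1 + 0)) :=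
      (continuous_const.add continuous_id).continuousAt.tendsto.mono_left nhdsWithin_le_nhds
    rw [add_zero] at this
    have h2 := ENNReal.tendsto_coe.2 this
    rw [ENNReal.coe_one] at h2
    exact h2
  have ht2 : Filter.Tendsto (fun ε : ℝ≥0 => (((1 - ε : ℝ≥0) : ℝ≥0∞))⁻¹) (𝓝[>] 0) (𝓝 1) := by
    have h1 : Filter.Tendsto (fun ε : ℝ≥0 => (1 - ε : ℝ≥0)) (𝓝[>] 0) (𝓝 (1 - 0)) :=
      (continuous_const.sub continuous_id).continuousAt.tendsto.mono_left nhdsWithin_le_nhds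
    rw [tsub_zero] at h1
    have h2 := ENNReal.tendsto_coe.2 h1
    have h3 := tendsto_inv_iff.2 h2
    simpa using h3
  have hp1 : Filter.Tendsto (fun ε : ℝ≥0 => ((1 + ε : ℝ≥0) : ℝ≥0∞) ^ (2 : ℝ)) (𝓝[>] 0)
      (𝓝 1) := by
    have := ht1.ennrpow_const (2 : ℝ)
    simpa using this
  have hp2 : Filter.Tendsto (fun ε : ℝ≥0 => (((1 - ε : ℝ≥0) : ℝ≥0∞))⁻¹ ^ (2 : ℝ)) (𝓝[>] 0)
      (𝓝 1) := by
    have := ht2.ennrpow_const (2 : ℝ)
    simpa using this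
  apply le_antisymm
  · have hlim : Filter.Tendsto (fun ε : ℝ≥0 => ((1 + ε : ℝ≥0) : ℝ≥0∞) ^ (2 : ℝ) *
        ((1 + ε : ℝ≥0) : ℝ≥0∞) * I) (𝓝[>] 0) (𝓝 (1 * 1 * I)) := by
      refine ENNReal.Tendsto.mul_const ?_ (Or.inl (by norm_num))
      exact ENNReal.Tendsto.mul hp1 (Or.inl one_ne_zero) ht1 (Or.inl one_ne_zero)
    rw [one_mul, one_mul] at hlim
    exact ge_of_tendsto hlim (hev.mono fun ε h => (hb ε h.1 h.2).1)
  · have hlim : Filter.Tendsto (fun ε : ℝ≥0 => ((1 + ε : ℝ≥0) : ℝ≥0∞) *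
        (((1 - ε : ℝ≥0) : ℝ≥0∞))⁻¹ ^ (2 : ℝ) * μH[2] (ψ '' s)) (𝓝[>] 0)
        (𝓝 (1 * 1 * μH[2] (ψ '' s))) := by
      refine ENNReal.Tendsto.mul_const ?_ (Or.inl (by norm_num))
      exact ENNReal.Tendsto.mul ht1 (Or.inl one_ne_zero) hp2 (Or.inl one_ne_zero)
    rw [one_mul, one_mul] at hlim
    exact ge_of_tendsto hlim (hev.mono fun ε h => (hb ε h.1 h.2).2)

theorem area_integral_aux [FiniteDimensional ℝ E]
    (hlin : ∀ (A : ℝ × ℝ →L[ℝ] E), Function.Injective A → ∀ B : Set (ℝ × ℝ),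
      μH[2] (A '' B) = ENNReal.ofReal (cH * jac (A (1, 0)) (A (0, 1))) * volume B)
    (hcH : 0 < cH)
    {ψ : ℝ × ℝ → E} {U s : Set (ℝ × ℝ)} (hU : IsOpen U) (hψ : ContDiffOn ℝ 1 ψ U)
    (hj : ∀ u ∈ U, 0 < jac (fderiv ℝ ψ u (1, 0)) (fderiv ℝ ψ u (0, 1)))
    (hs : MeasurableSet s) (hsU : s ⊆ U) (hinj : InjOn ψ s) (h : E → ℝ) :
    ∫ y in ψ '' s, h y ∂μH[2] =
      cH * ∫ u in s, jac (fderiv ℝ ψ u (1, 0)) (fderiv ℝ ψ u (0, 1)) * h (ψ u) := by
  set J : ℝ × ℝ → ℝ := fun u => jac (fderiv ℝ ψ u (1, 0)) (fderiv ℝ ψ u (0, 1)) with hJdef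
  have hJm : Measurable J := by
    have h1 := measurable_fderiv_apply_const ℝ ψ ((1, 0) : ℝ × ℝ)
    have h2 := measurable_fderiv_apply_const ℝ ψ ((0, 1) : ℝ × ℝ)
    exact continuous_jac.measurable.comp (h1.prodMk h2)
  have hJ0 : ∀ u, 0 ≤ J u := fun u => Real.sqrt_nonneg _
  have hcont : ContinuousOn ψ s := hψ.continuousOn.mono hsU
  have hemb : MeasurableEmbedding (s.domRestrict ψ) := hcont.measurableEmbedding hs hinj
  have hmap : Measure.map (s.domRestrict ψ)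
      (Measure.comap (↑) ((volume : Measure (ℝ × ℝ)).withDensity
        fun u => ENNReal.ofReal (cH * J u))) = (μH[2] : Measure E).restrict (ψ '' s) := by
    ext t ht
    rw [hemb.map_apply, Measure.restrict_apply ht]
    have hpre : MeasurableSet (s ∩ ψ ⁻¹' t) := by
      have h1 := hemb.measurable ht
      have h2 := (MeasurableEmbedding.subtype_coe hs).measurableSet_image.2 h1
      convert h2 using 1
      ext x
      constructor
      · rintro ⟨hx, hxt⟩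
        exact ⟨⟨x, hx⟩, hxt, rfl⟩
      · rintro ⟨⟨y, hy⟩, hyt, rfl⟩
        exact ⟨hy, hyt⟩
    have himg : ψ '' (s ∩ ψ ⁻¹' t) = t ∩ ψ '' s := by
      rw [image_inter_preimage, inter_comm]
    rw [← himg, area_formula_aux hlin hcH hU hψ hj hpre (inter_subset_left.trans hsU)
      (hinj.mono inter_subset_left)]
    rw [(MeasurableEmbedding.subtype_coe hs).comap_apply]
    have himg2 : ((↑) : s → ℝ × ℝ) '' (s.domRestrict ψ ⁻¹' t) = s ∩ ψ ⁻¹' t := by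
      ext x
      constructor
      · rintro ⟨⟨y, hy⟩, hyt, rfl⟩
        exact ⟨hy, hyt⟩
      · rintro ⟨hx, hxt⟩
        exact ⟨⟨x, hx⟩, hxt, rfl⟩
    rw [himg2, withDensity_apply _ hpre]
  rw [← hmap, hemb.integral_map]
  have hcomp : ∀ x : s, h (s.domRestrict ψ x) = (h ∘ ψ) x := fun x => rfl
  simp only [hcomp]
  rw [← (MeasurableEmbedding.subtype_coe hs).integral_map (g := h ∘ ψ),
    (MeasurableEmbedding.subtype_coe hs).map_comap, Subtype.range_coe]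
  simp only [ENNReal.ofReal]
  rw [setIntegral_withDensity_eq_setIntegral_smul₀ _ _ hs]
  · rw [← integral_const_mul]
    refine integral_congr_ae (Filter.Eventually.of_forall fun u => ?_)
    simp only [Function.comp_apply, NNReal.smul_def,
      Real.coe_toNNReal _ (mul_nonneg hcH.le (hJ0 u)), smul_eq_mul]
    ring
  · exact ((measurable_const.mul hJm).real_toNNReal).aemeasurable

end Kusner.P.F1b

namespace Kusner.P

theorem area_formula {E : Type*} [NormedAddCommGroup E] [InnerProductSpace ℝ E]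
    [FiniteDimensional ℝ E] [MeasurableSpace E] [BorelSpace E]
    {ψ : ℝ × ℝ → E} {U s : Set (ℝ × ℝ)} (hU : IsOpen U) (hψ : ContDiffOn ℝ 1 ψ U)
    (hj : ∀ u ∈ U, 0 < jac (fderiv ℝ ψ u (1, 0)) (fderiv ℝ ψ u (0, 1)))
    (hs : MeasurableSet s) (hsU : s ⊆ U) (hinj : InjOn ψ s) :
    μH[2] (ψ '' s) =
      ∫⁻ u in s, ENNReal.ofReal (cH * jac (fderiv ℝ ψ u (1, 0)) (fderiv ℝ ψ u (0, 1))) :=
  F1b.area_formula_aux (fun A _ B => area_linear (A : ℝ × ℝ →ₗ[ℝ] E) B) cH_pos hU hψ hj hs hsU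
    hinj

theorem area_integral {E : Type*} [NormedAddCommGroup E] [InnerProductSpace ℝ E]
    [FiniteDimensional ℝ E] [MeasurableSpace E] [BorelSpace E]
    {ψ : ℝ × ℝ → E} {U s : Set (ℝ × ℝ)} (hU : IsOpen U) (hψ : ContDiffOn ℝ 1 ψ U)
    (hj : ∀ u ∈ U, 0 < jac (fderiv ℝ ψ u (1, 0)) (fderiv ℝ ψ u (0, 1)))
    (hs : MeasurableSet s) (hsU : s ⊆ U) (hinj : InjOn ψ s) (h : E → ℝ) :
    ∫ y in ψ '' s, h y ∂μH[2] =
      cH * ∫ u in s, jac (fderiv ℝ ψ u (1, 0)) (fderiv ℝ ψ u (0, 1)) * h (ψ u) :=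
  F1b.area_integral_aux (fun A _ B => area_linear (A : ℝ × ℝ →ₗ[ℝ] E) B) cH_pos hU hψ hj hs hsU
    hinj h

end Kusner.P
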